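import Pool.Agent.Helper76.TX.StU

/-!
# Project TU, module EVX: `evX` under the Fricke involution and complex conjugation
-/

set_option autoImplicit false

namespace Pool.Agent.Helper33.TX

open Pool.Agent.Helper76.TX Pool.Agent.Helper14.CV Pool.Agent.Helper28.WK Pool.Agent.Helper78.TW

private theorem iter_comm {n l : ℕ} (hl : 0 < l) {a b c d : ℤ}
    (hS : ∀ G : ℤ → ℤ → ℂ, Sym 0 n G → Sym 0 n (Tl l 1 G))
    (hC : ∀ G : ℤ → ℤ → ℂ, Sym 0 n G → EqC (Tl l 1 (act a b c d G)) (act a b c d (Tl l 1 G)))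
    (i : ℕ) : ∀ G : ℤ → ℤ → ℂ, Sym 0 n G →
      EqC ((Tl l 1)^[i] (act a b c d G)) (act a b c d ((Tl l 1)^[i] G)) ∧ Sym 0 n ((Tl l 1)^[i] G) := by
  induction i with
  | zero => intro G hG; exact ⟨EqC.refl _, hG⟩
  | succ i ih =>
    intro G hG
    rw [Function.iterate_succ_apply, Function.iterate_succ_apply]
    have h1 := ih (Tl l 1 G) (hS G hG)
    exact ⟨((hC G hG).Tl_iter hl 1 i).trans h1.1, h1.2⟩

private theorem key {n : ℕ} {a b c d : ℤ} (hHkS : StHkS)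
    (hC : ∀ l : ℕ, l.Prime → l ≠ 2 → ∀ G : ℤ → ℤ → ℂ, Sym 0 n G →
      EqC (Tl l 1 (act a b c d G)) (act a b c d (Tl l 1 G)))
    (G : ℤ → ℤ → ℂ) (hG : Sym 0 n G) (i j : ℕ) :
    ∃ H : ℤ → ℤ → ℂ, Sym 0 n H ∧ H = (Tl 3 1)^[i] ((Tl 5 1)^[j] G) ∧
      EqC ((Tl 3 1)^[i] ((Tl 5 1)^[j] (act a b c d G))) (act a b c d H) := by
  have hS : ∀ l : ℕ, l.Prime → l ≠ 2 → ∀ G : ℤ → ℤ → ℂ, Sym 0 n G → Sym 0 n (Tl l 1 G) :=
    fun l hp h2 G hG => hHkS ℂ inferInstance n l G hp h2 hG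
  have h5 := iter_comm (l := 5) (by norm_num) (hS 5 (by norm_num) (by norm_num))
    (hC 5 (by norm_num) (by norm_num)) j G hG
  have h3 := iter_comm (l := 3) (by norm_num) (hS 3 (by norm_num) (by norm_num))
    (hC 3 (by norm_num) (by norm_num)) i _ h5.2
  exact ⟨_, h3.2, rfl, (h5.1.Tl_iter (by norm_num) 1 i).trans h3.1⟩

private theorem hom_neg {n : ℕ} {H : ℤ → ℤ → ℂ} (hH : Sym 0 n H) : H (-1) 0 = H 1 0 := by
  have := hH.1 (-1) 1 0 (by norm_num) (Or.inl one_ne_zero)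
  simpa using this

private theorem hom_neg' {n : ℕ} {H : ℤ → ℤ → ℂ} (hH : Sym 0 n H) : H 0 (-1) = H 0 1 := by
  have := hH.1 (-1) 0 1 (by norm_num) (Or.inr one_ne_zero)
  simpa using this

private theorem hom_two {n : ℕ} {H : ℤ → ℤ → ℂ} (hH : Sym 0 n H) : H 0 (2 ^ n) = H 0 1 := by
  have := hH.1 (2 ^ n) 0 1 (by positivity) (Or.inr one_ne_zero)
  simpa using this

/-- Periodicity of symbols. -/
private theorem per {n : ℕ} {H : ℤ → ℤ → ℂ} (hH : Sym 0 n H) (k p q : ℤ)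
    (hpq : p ≠ 0 ∨ q ≠ 0) : H (p + k * q) q = H p q := by
  obtain ⟨c, hc⟩ := hH.2 1 k 0 1 (by ring) (by simp) (dvd_zero _)
  have h1 := hc 1 0 (Or.inl one_ne_zero)
  have h2 := hc p q hpq
  simp only [act, one_mul, mul_zero, add_zero, zero_mul, zero_add, mul_one] at h1 h2
  have h3 : c = 0 := by
    have := h1.symm
    simpa using this
  rw [h2, h3, add_zero]

private theorem per_mod {n d : ℕ} (hd : d ≠ 0) {H : ℤ → ℤ → ℂ} (hH : Sym 0 n H) {a b : ℤ}
    (h : (a : ZMod d) = (b : ZMod d)) : H a d = H b d := by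
  obtain ⟨k, hk⟩ := (ZMod.intCast_eq_intCast_iff_dvd_sub a b d).1 h
  have e : b = a + k * d := by linear_combination hk
  rw [e, per hH k a d (Or.inr (by exact_mod_cast hd))]

private theorem jac_mod {d : ℕ} {a b : ℤ} (h : (a : ZMod d) = (b : ZMod d)) :
    jacobiSym a d = jacobiSym b d := by
  have h1 := (ZMod.intCast_eq_intCast_iff' a b d).1 h
  rw [jacobiSym.mod_left a d, h1, ← jacobiSym.mod_left b d]

/-- The sum over the residues prime to `d` as a sum over units. -/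
private theorem sum_units {d : ℕ} (hd : NeZero d) (φ : ℕ → ℂ)
    (h0 : ∀ a, ¬ Nat.Coprime a d → φ a = 0) :
    ∑ u : (ZMod d)ˣ, φ (u : ZMod d).val = ∑ a ∈ Finset.range d, φ a := by
  refine Finset.sum_of_injOn (fun u : (ZMod d)ˣ => (u : ZMod d).val) ?_ ?_ ?_ ?_
  · intro u _ v _ h
    exact Units.ext (ZMod.val_injective d h)
  · intro u _
    exact Finset.mem_coe.2 (Finset.mem_range.2 (ZMod.val_lt _))
  · intro a ha hna
    refine h0 a fun hc => hna ?_
    refine ⟨ZMod.unitOfCoprime a hc, Finset.mem_coe.2 (Finset.mem_univ _), ?_⟩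
    show ((ZMod.unitOfCoprime a hc : (ZMod d)ˣ) : ZMod d).val = a
    rw [ZMod.coe_unitOfCoprime, ZMod.val_natCast, Nat.mod_eq_of_lt (Finset.mem_range.1 ha)]
  · intro u _
    rfl

private theorem jac_zero {d : ℕ} (hd : NeZero d) {a : ℕ} (h : ¬ Nat.Coprime a d) :
    jacobiSym (a : ℤ) d = 0 := by
  rw [jacobiSym.eq_zero_iff_not_coprime]
  simpa [Int.gcd_natCast_natCast] using h

private theorem eX_units {d : ℕ} (hd : NeZero d) (G : ℤ → ℤ → ℂ) :
    eX d G = ∑ u : (ZMod d)ˣ, jacobiSym (((u : ZMod d).val : ℕ) : ℤ) d •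
      (G (((u : ZMod d).val : ℕ) : ℤ) d - G 1 0) := by
  unfold eX
  refine (sum_units hd (fun a : ℕ => jacobiSym (a : ℤ) d • (G a d - G 1 0)) ?_).symm
  intro a ha
  show jacobiSym (a : ℤ) d • (G a d - G 1 0) = 0
  rw [jac_zero hd ha, zero_smul]

private theorem cast_val {d : ℕ} (hd : NeZero d) (x : ZMod d) :
    (((x.val : ℕ) : ℤ) : ZMod d) = x := by
  rw [Int.cast_natCast, ZMod.natCast_zmod_val]

private theorem unit_coprime {d : ℕ} (u : (ZMod d)ˣ) :
    Int.gcd (((u : ZMod d).val : ℕ) : ℤ) d = 1 := by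
  rw [Int.gcd_natCast_natCast]
  exact ZMod.val_coe_unit_coprime u

/-- Complex conjugation. -/
private theorem eX_star {n d : ℕ} (hd : NeZero d) {H : ℤ → ℤ → ℂ} (hH : Sym 0 n H) :
    eX d (act (-1) 0 0 1 H) = jacobiSym (-1) d • eX d H := by
  rw [eX_units hd, eX_units hd, Finset.smul_sum]
  refine Fintype.sum_equiv (Equiv.neg (ZMod d)ˣ) _ _ fun u => ?_
  show jacobiSym (((u : ZMod d).val : ℕ) : ℤ) d • (act (-1) 0 0 1 H (((u : ZMod d).val : ℕ) : ℤ) d -
    act (-1) 0 0 1 H 1 0) = jacobiSym (-1) d •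
      (jacobiSym ((((-u : (ZMod d)ˣ) : ZMod d).val : ℕ) : ℤ) d •
        (H ((((-u : (ZMod d)ˣ) : ZMod d).val : ℕ) : ℤ) d - H 1 0))
  have e1 : ((((((-u : (ZMod d)ˣ) : ZMod d).val : ℕ) : ℤ)) : ZMod d) =
      ((-(((u : ZMod d).val : ℕ) : ℤ) : ℤ) : ZMod d) := by
    rw [cast_val hd, Int.cast_neg, cast_val hd, Units.val_neg]
  have e2 : jacobiSym ((((-u : (ZMod d)ˣ) : ZMod d).val : ℕ) : ℤ) d =
      jacobiSym (-1) d * jacobiSym (((u : ZMod d).val : ℕ) : ℤ) d := by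
    rw [jac_mod e1, ← jacobiSym.mul_left, neg_one_mul]
  have e3 : H ((((-u : (ZMod d)ˣ) : ZMod d).val : ℕ) : ℤ) d =
      H (-(((u : ZMod d).val : ℕ) : ℤ)) d := per_mod hd.ne hH e1
  have e4 : jacobiSym (-1) d * jacobiSym (-1) d = 1 := by
    have h := jacobiSym.sq_one' (a := -1) (b := d) (by simp)
    rw [sq, jacobiSym.mul_left] at h
    exact h
  rw [e2, e3, smul_smul, ← mul_assoc, e4, one_mul]
  simp only [act, zero_mul, mul_zero, mul_one, zero_add, add_zero, neg_mul, one_mul]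
  rw [hom_neg hH]

/-- The involution `u ↦ -(w u)⁻¹` of the units. -/
private def inv_perm {d : ℕ} (w : (ZMod d)ˣ) : Equiv.Perm (ZMod d)ˣ where
  toFun u := -(w * u)⁻¹
  invFun u := -(w * u)⁻¹
  left_inv u := by
    show -(w * -(w * u)⁻¹)⁻¹ = u
    rw [mul_neg, inv_neg, neg_neg, mul_inv_rev, mul_inv_rev, mul_inv_rev, inv_inv, inv_inv,
      mul_comm w u, mul_assoc, mul_inv_cancel, mul_one]
  right_inv u := by
    show -(w * -(w * u)⁻¹)⁻¹ = u
    rw [mul_neg, inv_neg, neg_neg, mul_inv_rev, mul_inv_rev, mul_inv_rev, inv_inv, inv_inv,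
      mul_comm w u, mul_assoc, mul_inv_cancel, mul_one]

/-- The Fricke involution. -/
private theorem eX_fricke {n d : ℕ} (hd : NeZero d) (hod : Odd d) {H : ℤ → ℤ → ℂ}
    (hH : Sym 0 n H) :
    eX d (act 0 (-1) (2 ^ n) 0 H) = (-(jacobiSym (-(2 ^ n)) d)) • eX d H := by
  have hcop : Nat.Coprime (2 ^ n) d := Nat.Coprime.pow_left n (Nat.coprime_two_left.2 hod)
  have hgcd : Int.gcd (-(2 ^ n)) d = 1 := by
    rw [Int.neg_gcd]
    have : ((2 : ℤ) ^ n) = ((2 ^ n : ℕ) : ℤ) := by push_cast; rfl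
    rw [this, Int.gcd_natCast_natCast]
    exact hcop
  have hJ2 : jacobiSym (-(2 ^ n)) d * jacobiSym (-(2 ^ n)) d = 1 := by
    rw [← jacobiSym.mul_left, ← sq]
    exact jacobiSym.sq_one' hgcd
  rw [eX_units hd, eX_units hd, Finset.smul_sum]
  refine Fintype.sum_equiv (inv_perm (ZMod.unitOfCoprime (2 ^ n) hcop)) _ _ fun u => ?_
  set v : (ZMod d)ˣ := inv_perm (ZMod.unitOfCoprime (2 ^ n) hcop) u with hv
  have hv' : v = -(ZMod.unitOfCoprime (2 ^ n) hcop * u)⁻¹ := hv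
  set a : ℤ := (((u : ZMod d).val : ℕ) : ℤ) with ha
  set a' : ℤ := (((v : ZMod d).val : ℕ) : ℤ) with ha'
  have hau : ((a : ℤ) : ZMod d) = (u : ZMod d) := cast_val hd _
  have hav : ((a' : ℤ) : ZMod d) = (v : ZMod d) := cast_val hd _
  -- `2^n a a' = -1` modulo `d`
  have hprod : ((2 ^ n * a * a' : ℤ) : ZMod d) = ((-1 : ℤ) : ZMod d) := by
    push_cast
    rw [hau, hav]
    have h1 : ((2 : ZMod d) ^ n) = ((ZMod.unitOfCoprime (2 ^ n) hcop : (ZMod d)ˣ) : ZMod d) := by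
      rw [ZMod.coe_unitOfCoprime]
      push_cast
      rfl
    rw [h1, ← Units.val_mul, ← Units.val_mul, hv']
    rw [mul_neg, mul_inv_cancel, Units.val_neg, Units.val_one]
  obtain ⟨δ, hδ⟩ := (ZMod.intCast_eq_intCast_iff_dvd_sub _ _ d).1 hprod
  -- `-1 - 2^n a a' = d δ`
  have hdet : (-(d : ℤ)) * δ - a' * (2 ^ n * a) = 1 := by linear_combination hδ
  have hE := hH.2 (-(d : ℤ)) a' (2 ^ n * a) δ hdet (by simp) (Dvd.intro _ rfl)
  have hdz : (d : ℤ) ≠ 0 := by exact_mod_cast hd.ne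
  have h1 := hE.diff (p := 1) (q := 0) (p' := a') (q' := d) (Or.inl one_ne_zero) (Or.inr hdz)
  have e1 : act (-(d : ℤ)) a' (2 ^ n * a) δ H 1 0 = H (-(d : ℤ)) (2 ^ n * a) := by
    simp only [act, mul_one, mul_zero, add_zero]
  have e2 : act (-(d : ℤ)) a' (2 ^ n * a) δ H a' d = H 0 (-1) := by
    unfold act
    congr 1
    · ring
    · linear_combination -hδ
  rw [e1, e2, hom_neg' hH] at h1
  -- the Jacobi symbols
  have hJ : jacobiSym a d = jacobiSym (-(2 ^ n)) d * jacobiSym a' d := by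
    have g1 : jacobiSym (-(2 ^ n)) d * (jacobiSym a d * jacobiSym a' d) = 1 := by
      rw [← jacobiSym.mul_left, ← jacobiSym.mul_left]
      have : ((-(2 ^ n) * (a * a') : ℤ) : ZMod d) = ((1 : ℤ) : ZMod d) := by
        have e : (-(2 ^ n) * (a * a') : ℤ) = -(2 ^ n * a * a') := by ring
        rw [e, Int.cast_neg, hprod]
        push_cast
        ring
      rw [jac_mod this, jacobiSym.one_left]
    have g2 : jacobiSym a' d * jacobiSym a' d = 1 := by
      rw [← jacobiSym.mul_left, ← sq]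
      exact jacobiSym.sq_one' (unit_coprime v)
    calc jacobiSym a d = jacobiSym a d * (jacobiSym a' d * jacobiSym a' d) *
          (jacobiSym (-(2 ^ n)) d * jacobiSym (-(2 ^ n)) d) := by rw [g2, hJ2]; ring
      _ = (jacobiSym (-(2 ^ n)) d * (jacobiSym a d * jacobiSym a' d)) *
          (jacobiSym (-(2 ^ n)) d * jacobiSym a' d) := by ring
      _ = jacobiSym (-(2 ^ n)) d * jacobiSym a' d := by rw [g1, one_mul]
  have e3 : act 0 (-1) (2 ^ n) 0 H a d - act 0 (-1) (2 ^ n) 0 H 1 0 = -(H a' d - H 1 0) := by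
    have g1 : act 0 (-1) (2 ^ n) 0 H a d = H (-(d : ℤ)) (2 ^ n * a) := by
      unfold act
      congr 1 <;> ring
    have g2 : act 0 (-1) (2 ^ n) 0 H 1 0 = H 0 1 := by
      rw [← hom_two hH]
      unfold act
      congr 1 <;> ring
    rw [g1, g2, h1]
    ring
  rw [e3, hJ, smul_neg, smul_smul, neg_mul, neg_smul]

/-- EVX. -/
theorem hEvx : StEvx := by
  intro hHkS hHkW hHkT _hNrm d n G hod _hn hG
  have hd : NeZero d := ⟨by rintro rfl; simp at hod⟩
  constructor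
  · funext i j
    obtain ⟨H, hH, hHe, hE⟩ :=
      key hHkS (fun l hp h2 G hG => hHkW ℂ inferInstance n l G hp h2 hG) G hG i j
    rw [Pi.smul_apply, Pi.smul_apply, evX_apply, evX_apply, eX_congr hd.ne hE,
      eX_fricke hd hod hH, ← hHe]
  · funext i j
    obtain ⟨H, hH, hHe, hE⟩ :=
      key hHkS (fun l hp h2 G hG => hHkT ℂ inferInstance n l G hp h2 hG) G hG i j
    rw [Pi.smul_apply, Pi.smul_apply, evX_apply, evX_apply, eX_congr hd.ne hE,
      eX_star hd hH, ← hHe]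

end Pool.Agent.Helper33.TX
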